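import Mathlib
import Pool.Agent.H972R2.CG.Cog

set_option autoImplicit false

/-!
# The real characteristic roots of cographic matroids are bounded

A matroid `M` is cographic if its dual is the cycle matroid of a finite multigraph; the cycle matroid
is given, as in the frozen statement of this problem, by the linear independence over the rational
numbers of the incidence vectors of the edges.
-/

namespace Pool.Agent.Results.MP_4a8162_co.CographicBounded

universe u

theorem result : ∃ d : ℝ, ∀ (α : Type u) (M : Matroid α),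
    (∃ (m : ℕ) (ends : α → Fin m × Fin m), ∀ I : Set α,
      M✶.Indep I ↔ (I ⊆ M.E ∧ LinearIndependent ℚ
        (fun x : I => (Pi.single (ends x).1 (1 : ℚ) - Pi.single (ends x).2 (1 : ℚ) : Fin m → ℚ)))) →
    (∀ e ∈ M.E, M.Indep {e}) →
    ∀ E : Finset α, (E : Set α) = M.E → ∀ x : ℝ, d < x →
      0 < ∑ X ∈ E.powerset, (-1 : ℝ) ^ X.card *
        x ^ (sSup {n : ℕ | ∃ I ⊆ M.E, M.Indep I ∧ I.ncard = n}
             - sSup {n : ℕ | ∃ I ⊆ (X : Set α), M.Indep I ∧ I.ncard = n}) := by
  obtain ⟨d, hd⟩ := Pool.Agent.H972R2.CG.cographic.{u}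
  refine ⟨d, fun α M ⟨m, ends, hM⟩ hloop E hE x hx => ?_⟩
  have hfin : M.Finite := ⟨by rw [← hE]; exact E.finite_toSet⟩
  have h := hd α M m ends hM hloop E hE x hx
  refine lt_of_lt_of_eq h (Finset.sum_congr rfl fun X _ => ?_)
  rw [Pool.Agent.H972R2.CG.sSup_rank M hfin, Pool.Agent.H972R2.CG.sSup_rank M hfin]

end Pool.Agent.Results.MP_4a8162_co.CographicBounded
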